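import Pool.Agent.Run7.h115.HK.Iface

/-!
# Project HK (helper115), piece V1: the Sobolev space
-/

set_option autoImplicit false

open MeasureTheory Filter Topology Set
open scoped ENNReal
open Pool.Agent.N288.MM Run7.h115.HK

namespace Run7.h771.HK

variable {w : ℝ → ℝ}

theorem der_congr {f f' g g' : ℝ → ℝ} (h : Der w f g) (hf : f =ᵐ[mu w] f')
    (hg : g =ᵐ[mu w] g') : Der w f' g' := by
  obtain ⟨h1, h2, F, hF, hd⟩ := h
  refine ⟨h1.ae_eq hf, h2.ae_eq hg, F, ⟨hF.1, ?_⟩, ?_⟩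
  · refine hF.2.congr fun n => eLpNorm_congr_ae ?_
    filter_upwards [hf] with x hx
    rw [hx]
  · refine hd.congr fun n => eLpNorm_congr_ae ?_
    filter_upwards [hg] with x hx
    rw [hx]

/-- the graph of the derivative is closed -/
theorem der_limit {f g : ℕ → ℝ → ℝ} {f' g' : ℝ → ℝ} (h : ∀ n, Der w (f n) (g n))
    (hf' : MemLp f' 2 (mu w)) (hg' : MemLp g' 2 (mu w))
    (hf : Tendsto (fun n => eLpNorm (fun x => f n x - f' x) 2 (mu w)) atTop (𝓝 0))
    (hg : Tendsto (fun n => eLpNorm (fun x => g n x - g' x) 2 (mu w)) atTop (𝓝 0)) :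
    Der w f' g' := by
  have key : ∀ n : ℕ, ∃ F : ℝ → ℝ, IsLip F ∧ MemLp F 2 (mu w) ∧
      eLpNorm (fun x => F x - f n x) 2 (mu w) < 1 / ((n : ℝ≥0∞) + 1) ∧
      eLpNorm (fun x => deriv F x - g n x) 2 (mu w) < 1 / ((n : ℝ≥0∞) + 1) := by
    intro n
    obtain ⟨_, _, F, hF, hd⟩ := h n
    have hn : (0 : ℝ≥0∞) < 1 / ((n : ℝ≥0∞) + 1) := by
      refine ENNReal.div_pos (by simp) ?_
      exact ENNReal.add_ne_top.2 ⟨by simp, by simp⟩
    obtain ⟨m, h1, h2⟩ := ((hF.2.eventually (gt_mem_nhds hn)).and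
      (hd.eventually (gt_mem_nhds hn))).exists
    exact ⟨F m, (hF.1 m).1, (hF.1 m).2, h1, h2⟩
  choose F hF using key
  have h0 : Tendsto (fun n : ℕ => 1 / ((n : ℝ≥0∞) + 1)) atTop (𝓝 0) := by
    have h1 : Tendsto (fun n : ℕ => ((n : ℝ≥0∞))⁻¹) atTop (𝓝 0) :=
      ENNReal.tendsto_inv_nat_nhds_zero
    refine tendsto_of_tendsto_of_tendsto_of_le_of_le tendsto_const_nhds h1 (fun _ => bot_le)
      fun n => ?_
    show 1 / ((n : ℝ≥0∞) + 1) ≤ (n : ℝ≥0∞)⁻¹
    rw [one_div]
    exact ENNReal.inv_le_inv.2 le_self_add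
  refine ⟨hf', hg', F, ⟨fun n => ⟨(hF n).1, (hF n).2.1⟩, ?_⟩, ?_⟩
  · have hs := h0.add hf
    rw [add_zero] at hs
    refine tendsto_of_tendsto_of_tendsto_of_le_of_le tendsto_const_nhds hs (fun _ => bot_le)
      fun n => ?_
    have h1 := eLpNorm_add_le (p := 2) (μ := mu w) (f := fun x => F n x - f n x)
      (g := fun x => f n x - f' x) ((hF n).2.1.1.sub (h n).1.1) ((h n).1.1.sub hf'.1)
      (by norm_num)
    refine le_trans (le_of_eq ?_) (h1.trans (add_le_add (hF n).2.2.1.le le_rfl))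
    congr 1
    funext x
    show F n x - f' x = (F n x - f n x) + (f n x - f' x)
    ring
  · have hs := h0.add hg
    rw [add_zero] at hs
    refine tendsto_of_tendsto_of_tendsto_of_le_of_le tendsto_const_nhds hs (fun _ => bot_le)
      fun n => ?_
    have h1 := eLpNorm_add_le (p := 2) (μ := mu w) (f := fun x => deriv (F n) x - g n x)
      (g := fun x => g n x - g' x) ((measurable_deriv _).aestronglyMeasurable.sub (h n).2.1.1)
      ((h n).2.1.1.sub hg'.1) (by norm_num)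
    refine le_trans (le_of_eq ?_) (h1.trans (add_le_add (hF n).2.2.2.le le_rfl))
    congr 1
    funext x
    show deriv (F n) x - g' x = (deriv (F n) x - g n x) + (g n x - g' x)
    ring

theorem der_zero : Der w (fun _ => 0) (fun _ => 0) := by
  have h1 : IsLip (fun _ : ℝ => (0 : ℝ)) := ⟨0, LipschitzWith.const 0⟩
  have h2 : deriv (fun _ : ℝ => (0 : ℝ)) = fun _ => 0 := by
    funext x; simp
  have h3 := Der.of_lip (w := w) h1 (by simp) (by rw [h2]; simp)
  rwa [h2] at h3

theorem derC_congr {f f' g g' : ℝ → ℂ} (h : DerC w f g) (hf : f =ᵐ[mu w] f')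
    (hg : g =ᵐ[mu w] g') : DerC w f' g' :=
  ⟨der_congr h.1 (hf.mono fun x hx => congrArg Complex.re hx)
      (hg.mono fun x hx => congrArg Complex.re hx),
    der_congr h.2 (hf.mono fun x hx => congrArg Complex.im hx)
      (hg.mono fun x hx => congrArg Complex.im hx)⟩

theorem derC_add (hw : Weight w) {f f' g g' : ℝ → ℂ} (h : DerC w f g) (h' : DerC w f' g') :
    DerC w (fun x => f x + f' x) (fun x => g x + g' x) :=
  ⟨h.1.add hw h'.1, h.2.add hw h'.2⟩

theorem derC_smul (hw : Weight w) (c : ℂ) {f g : ℝ → ℂ} (h : DerC w f g) :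
    DerC w (fun x => c * f x) (fun x => c * g x) := by
  constructor
  · have h1 := (h.1.smul hw c.re).sub hw (h.2.smul hw c.im)
    simpa only [Complex.mul_re] using h1
  · have h1 := (h.2.smul hw c.re).add hw (h.1.smul hw c.im)
    simpa only [Complex.mul_im] using h1

theorem re_le (u : ℝ → ℂ) : eLpNorm (fun x => (u x).re) 2 (mu w) ≤ eLpNorm u 2 (mu w) :=
  eLpNorm_mono fun x => by
    rw [Real.norm_eq_abs]; exact Complex.abs_re_le_norm _

theorem im_le (u : ℝ → ℂ) : eLpNorm (fun x => (u x).im) 2 (mu w) ≤ eLpNorm u 2 (mu w) :=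
  eLpNorm_mono fun x => by
    rw [Real.norm_eq_abs]; exact Complex.abs_im_le_norm _

theorem lp_tendsto {u : ℕ → H2 w} {v : H2 w} (h : Tendsto u atTop (𝓝 v)) :
    Tendsto (fun n => eLpNorm (fun x => ((u n : ℝ → ℂ) x).re - (v x).re) 2 (mu w)) atTop
      (𝓝 0) ∧
    Tendsto (fun n => eLpNorm (fun x => ((u n : ℝ → ℂ) x).im - (v x).im) 2 (mu w)) atTop
      (𝓝 0) := by
  have h1 := (Lp.tendsto_Lp_iff_tendsto_eLpNorm' u v).1 h
  constructor
  · refine tendsto_of_tendsto_of_tendsto_of_le_of_le tendsto_const_nhds h1 (fun _ => bot_le)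
      fun n => ?_
    refine le_trans (le_of_eq ?_) (re_le _)
    congr 1
  · refine tendsto_of_tendsto_of_tendsto_of_le_of_le tendsto_const_nhds h1 (fun _ => bot_le)
      fun n => ?_
    refine le_trans (le_of_eq ?_) (im_le _)
    congr 1

theorem t_V1 : S_V1 := by
  intro w hw
  refine ⟨{ carrier := {z : HH w | DerC w z.fst z.snd}
            add_mem' := ?_, zero_mem' := ?_, smul_mem' := ?_ }, ?_, fun z => Iff.rfl⟩
  · intro z z' hz hz'
    refine derC_congr (derC_add hw hz hz') ?_ ?_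
    · rw [WithLp.add_fst]
      exact (Lp.coeFn_add _ _).symm
    · rw [WithLp.add_snd]
      exact (Lp.coeFn_add _ _).symm
  · refine derC_congr (f := fun _ => 0) (g := fun _ => 0) ⟨?_, ?_⟩ ?_ ?_
    · simpa using der_zero (w := w)
    · simpa using der_zero (w := w)
    · rw [WithLp.zero_fst]
      exact (Lp.coeFn_zero _ _ _).symm
    · rw [WithLp.zero_snd]
      exact (Lp.coeFn_zero _ _ _).symm
  · intro c z hz
    refine derC_congr (derC_smul hw c hz) ?_ ?_
    · rw [WithLp.smul_fst]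
      have h1 := (Lp.coeFn_smul c z.fst).symm
      exact h1
    · rw [WithLp.smul_snd]
      have h1 := (Lp.coeFn_smul c z.snd).symm
      exact h1
  · refine IsSeqClosed.isClosed fun u v hu huv => ?_
    have h1 : Tendsto (fun n => (u n).fst) atTop (𝓝 v.fst) :=
      ((WithLp.fstL 2 ℂ (H2 w) (H2 w)).continuous.tendsto v).comp huv
    have h2 : Tendsto (fun n => (u n).snd) atTop (𝓝 v.snd) :=
      ((WithLp.sndL 2 ℂ (H2 w) (H2 w)).continuous.tendsto v).comp huv
    have h3 := lp_tendsto h1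
    have h4 := lp_tendsto h2
    exact ⟨der_limit (fun n => (hu n).1) (Lp.memLp v.fst).re (Lp.memLp v.snd).re h3.1 h4.1,
      der_limit (fun n => (hu n).2) (Lp.memLp v.fst).im (Lp.memLp v.snd).im h3.2 h4.2⟩

end Run7.h771.HK
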