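import Pool.Agent.Run7.h771.HK.V1

/-!
# Project HK (helper115), piece V2: the Sobolev space is dense
-/

set_option autoImplicit false

open MeasureTheory Filter Topology Set
open scoped ENNReal ContDiff
open Pool.Agent.N288.MM Run7.h115.HK

namespace Run7.h771.HK

variable {w : ℝ → ℝ}

theorem locFin (hw : Weight w) : IsLocallyFiniteMeasure (mu w) :=
  ⟨fun x => ⟨Metric.ball x 1, Metric.ball_mem_nhds x one_pos,
    (mu_ball_le hw x 1).trans_lt ENNReal.ofReal_lt_top⟩⟩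

theorem der_smooth (hw : Weight w) {g : ℝ → ℝ} (hg : ContDiff ℝ ∞ g)
    (hs : HasCompactSupport g) : Der w g (deriv g) := by
  have h1 : IsLip g := by
    obtain ⟨C, hC⟩ := ContDiff.lipschitzWith_of_hasCompactSupport hs hg (by simp)
    exact ⟨C, hC⟩
  have hc : Continuous (deriv g) := hg.continuous_deriv (by simp)
  exact Der.of_lip h1 (memLp_mu hw (hg.continuous.memLp_of_hasCompactSupport hs))
    (memLp_mu hw (hc.memLp_of_hasCompactSupport hs.deriv))

theorem orth_zero (hw : Weight w) (f : H2 w)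
    (h : ∀ (g : ℝ → ℝ) (m : MemLp (fun x => (g x : ℂ)) 2 (mu w)), ContDiff ℝ ∞ g →
      HasCompactSupport g → inner ℂ (m.toLp : H2 w) f = 0) : f = 0 := by
  have := locFin hw
  have hl : LocallyIntegrable (f : ℝ → ℂ) (mu w) := (Lp.memLp f).locallyIntegrable (by norm_num)
  have hae : ∀ᵐ x ∂(mu w), (f : ℝ → ℂ) x = 0 := by
    refine ae_eq_zero_of_integral_contDiff_smul_eq_zero hl fun g hg hs => ?_
    have m1 : MemLp (fun x => (g x : ℂ)) 2 (mu w) := (der_smooth hw hg hs).1.ofReal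
    have h1 := h g m1 hg hs
    rw [MeasureTheory.L2.inner_def] at h1
    rw [← h1]
    refine integral_congr_ae ?_
    filter_upwards [m1.coeFn_toLp] with x hx
    rw [hx, RCLike.inner_apply, Complex.conj_ofReal, Complex.real_smul]
    ring
  exact (Lp.eq_zero_iff_ae_eq_zero).2 hae

theorem pair_mem (V : Submodule ℂ (HH w)) (hV : ∀ z : HH w, z ∈ V ↔ DerC w z.fst z.snd)
    (a b : H2 w) (h : DerC w a b) : ∃ z ∈ V, z.fst = a :=
  ⟨WithLp.toLp 2 (a, b), (hV _).2 h, rfl⟩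

theorem mem_smooth (hw : Weight w) (V : Submodule ℂ (HH w))
    (hV : ∀ z : HH w, z ∈ V ↔ DerC w z.fst z.snd) (g : ℝ → ℝ) (hg : ContDiff ℝ ∞ g)
    (hs : HasCompactSupport g) (a : H2 w) (ha : (fun x => (g x : ℂ)) =ᵐ[mu w] (a : ℝ → ℂ)) :
    ∃ z ∈ V, z.fst = a := by
  have hd := der_smooth hw hg hs
  have m2 : MemLp (fun x => ((deriv g x : ℝ) : ℂ)) 2 (mu w) := hd.2.1.ofReal
  obtain ⟨b, hb⟩ : ∃ b : H2 w, (fun x => ((deriv g x : ℝ) : ℂ)) =ᵐ[mu w] (b : ℝ → ℂ) :=
    ⟨m2.toLp, m2.coeFn_toLp.symm⟩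
  refine pair_mem V hV a b (derC_congr ⟨?_, ?_⟩ ha hb)
  · exact hd
  · exact der_zero (w := w)

theorem t_V2 : S_V2 := by
  intro w hw V hV
  have hK : (Set.range fun z : V => (z : HH w).fst) =
      ((V.map (WithLp.fstL 2 ℂ (H2 w) (H2 w)).toLinearMap : Submodule ℂ (H2 w)) :
        Set (H2 w)) := by
    ext f
    constructor
    · rintro ⟨z, rfl⟩
      exact ⟨z, z.2, rfl⟩
    · rintro ⟨z, hz, rfl⟩
      exact ⟨⟨z, hz⟩, rfl⟩
  show Dense (Set.range fun z : V => (z : HH w).fst)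
  rw [hK, Submodule.dense_iff_topologicalClosure_eq_top,
    Submodule.topologicalClosure_eq_top_iff, Submodule.eq_bot_iff]
  intro f hf
  rw [Submodule.mem_orthogonal] at hf
  refine orth_zero hw f fun g m hg hs => ?_
  obtain ⟨z, hz, he⟩ := mem_smooth hw V hV g hg hs m.toLp m.coeFn_toLp.symm
  exact hf _ ⟨z, hz, he⟩

end Run7.h771.HK
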