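import Pool.Agent.Run7.h771.HK.V2

/-!
# Project HK (helper115), piece V3: evaluation functionals
-/

set_option autoImplicit false

open MeasureTheory Filter Topology Set
open scoped ENNReal NNReal
open Pool.Agent.N288.MM Run7.h115.HK

namespace Run7.h771.HK

variable {w : ℝ → ℝ}

/-- the cut off -/
noncomputable def ph (s : ℝ) : ℝ := max 0 (min 1 (1 - s))

theorem ph_cont : Continuous ph := by
  unfold ph
  fun_prop

theorem ph_le (s : ℝ) : |ph s| ≤ 1 := by
  have h0 : 0 ≤ ph s := le_max_left _ _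
  rw [abs_of_nonneg h0]
  exact max_le zero_le_one (min_le_left _ _)

theorem ph_eq {s : ℝ} (h : s ∈ Icc (0 : ℝ) 1) : ph s = 1 - s := by
  unfold ph
  rw [min_eq_right (by linarith [h.1]), max_eq_right (by linarith [h.2])]

theorem lip_ac {F : ℝ → ℝ} (hF : IsLip F) (a b : ℝ) : AbsolutelyContinuousOnInterval F a b := by
  obtain ⟨K, hK⟩ := hF
  exact hK.lipschitzOnWith.absolutelyContinuousOnInterval

theorem rep_lip {F : ℝ → ℝ} (hF : IsLip F) (x : ℝ) :
    F x = (∫ s in (0 : ℝ)..1, F s) - (∫ s in (0 : ℝ)..1, ph s * deriv F s) +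
      ∫ s in (0 : ℝ)..x, deriv F s := by
  have h1 := hF.ftc 0 x
  have hl : IsLip fun s : ℝ => 1 - s := by
    refine ⟨1, LipschitzWith.of_dist_le_mul fun s t => ?_⟩
    rw [Real.dist_eq, Real.dist_eq, NNReal.coe_one, one_mul]
    have : 1 - s - (1 - t) = -(s - t) := by ring
    rw [this, abs_neg]
  have h2 := AbsolutelyContinuousOnInterval.integral_mul_deriv_eq_deriv_mul
    (lip_ac hl 0 1) (lip_ac hF 0 1)
  have h3 : ∫ s in (0 : ℝ)..1, ph s * deriv F s = ∫ s in (0 : ℝ)..1, (1 - s) * deriv F s := by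
    refine intervalIntegral.integral_congr fun s hs => ?_
    rw [uIcc_of_le zero_le_one] at hs
    simp only [ph_eq hs]
  have h5 : ∀ s : ℝ, deriv (fun s : ℝ => 1 - s) s = -1 := by
    intro s
    have := ((hasDerivAt_id s).const_sub 1).deriv
    exact this
  have h4 : ∫ s in (0 : ℝ)..1, deriv (fun s : ℝ => 1 - s) s * F s =
      -∫ s in (0 : ℝ)..1, F s := by
    simp only [h5, neg_mul, one_mul, intervalIntegral.integral_neg]
  rw [h3, h2, h4, h1]
  ring

theorem rep (hw : Weight w) {f g : ℝ → ℝ} (h : Der w f g) :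
    ∀ᵐ x, f x = (∫ s in (0 : ℝ)..1, f s) - (∫ s in (0 : ℝ)..1, ph s * g s) +
      ∫ s in (0 : ℝ)..x, g s := by
  obtain ⟨hf, hg, F, hF, hd⟩ := h
  have h1 : TendstoInMeasure volume F atTop f :=
    tendstoInMeasure_of_tendsto_eLpNorm (p := 2) (by norm_num)
      (fun n => (memLp_vol hw (hF.1 n).2).1) (memLp_vol hw hf).1 (vol_of_mu hw hF.2)
  obtain ⟨ns, hns, hae⟩ := h1.exists_seq_tendsto_ae
  filter_upwards [hae] with x hx
  have hpg : MemLp (fun s => ph s * g s) 2 (mu w) := by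
    refine hg.mono (ph_cont.aestronglyMeasurable.mul hg.1) (Eventually.of_forall fun s => ?_)
    rw [norm_mul, Real.norm_eq_abs (ph s)]
    exact mul_le_of_le_one_left (norm_nonneg _) (ph_le s)
  have t1 := tends_int hw (u := F) (g := f)
    (fun n a b => (hF.1 n).1.cont.intervalIntegrable a b) hf
    (fun n => (hF.1 n).1.cont.aestronglyMeasurable) hF.2 0 1
  have t2 := tends_int hw (u := fun n s => ph s * deriv (F n) s) (g := fun s => ph s * g s)
    (fun n a b => ((hF.1 n).1.intble a b).continuousOn_mul ph_cont.continuousOn) hpg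
    (fun n => ph_cont.aestronglyMeasurable.mul (measurable_deriv _).aestronglyMeasurable)
    (by
      refine tendsto_of_tendsto_of_tendsto_of_le_of_le tendsto_const_nhds hd (fun _ => bot_le)
        fun n => eLpNorm_mono fun s => ?_
      rw [← mul_sub, norm_mul, Real.norm_eq_abs (ph s)]
      exact mul_le_of_le_one_left (norm_nonneg _) (ph_le s)) 0 1
  have t3 := tends_int hw (u := fun n => deriv (F n)) (g := g) (fun n => (hF.1 n).1.intble) hg
    (fun n => (measurable_deriv _).aestronglyMeasurable) hd 0 x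
  have t4 := ((t1.sub t2).add t3).comp hns.tendsto_atTop
  refine tendsto_nhds_unique hx (t4.congr fun k => ?_)
  exact (rep_lip (hF.1 (ns k)).1 x).symm

/-! ### the functionals -/

theorem iintC (hw : Weight w) (g : H2 w) {ψ : ℝ → ℝ} (hψ : Continuous ψ) (a b : ℝ) :
    IntervalIntegrable (fun s => (ψ s : ℂ) * (g : ℝ → ℂ) s) volume a b := by
  have h1 : LocallyIntegrable (g : ℝ → ℂ) volume :=
    ((Lp.memLp g).mono_measure (vol_le hw)).locallyIntegrable (by norm_num)
  have h2 : IntervalIntegrable (g : ℝ → ℂ) volume a b :=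
    intervalIntegrable_iff.2
      ((h1.integrableOn_isCompact isCompact_uIcc).mono_set uIoc_subset_uIcc)
  exact h2.continuousOn_mul (Complex.continuous_ofReal.comp hψ).continuousOn

theorem cs (hw : Weight w) (g : H2 w) {ψ : ℝ → ℝ} (hψ : Continuous ψ) (hb : ∀ s, |ψ s| ≤ 1)
    {a b : ℝ} (hab : a ≤ b) :
    ‖∫ s in a..b, (ψ s : ℂ) * (g : ℝ → ℂ) s‖ ≤ Real.sqrt (b - a) * ‖g‖ := by
  rw [intervalIntegral.integral_of_le hab]
  set ν := volume.restrict (Ioc a b) with hν
  set u : ℝ → ℂ := fun s => (ψ s : ℂ) * (g : ℝ → ℂ) s with hu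
  have hgm : AEStronglyMeasurable (g : ℝ → ℂ) volume :=
    (Lp.memLp g).1.mono_measure (vol_le hw)
  have hum : AEStronglyMeasurable u volume :=
    (Complex.continuous_ofReal.comp hψ).aestronglyMeasurable.mul hgm
  have h1 : ‖∫ s, u s ∂ν‖ₑ ≤ eLpNorm u 1 ν := by
    rw [eLpNorm_one_eq_lintegral_enorm]
    exact enorm_integral_le_lintegral_enorm _
  have h2 := eLpNorm_le_eLpNorm_mul_rpow_measure_univ (p := 1) (q := 2) (μ := ν) (f := u)
    (by norm_num) hum.restrict
  have h3 : eLpNorm u 2 ν ≤ ‖g‖ₑ := by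
    rw [Lp.enorm_def]
    refine (eLpNorm_mono_measure _ Measure.restrict_le_self).trans ?_
    refine le_trans ?_ (eLpNorm_mono_measure _ (vol_le hw))
    refine eLpNorm_mono fun s => ?_
    rw [hu, norm_mul, Complex.norm_real, Real.norm_eq_abs]
    exact mul_le_of_le_one_left (norm_nonneg _) (hb s)
  have h4 : (1 / (1 : ℝ≥0∞).toReal - 1 / (2 : ℝ≥0∞).toReal) = (1 / 2 : ℝ) := by norm_num
  have h5 : ν univ = ENNReal.ofReal (b - a) := by rw [hν]; simp
  rw [h4, h5] at h2
  have h6 : ‖∫ s, u s ∂ν‖ₑ ≤ ‖g‖ₑ * ENNReal.ofReal (b - a) ^ (1 / 2 : ℝ) :=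
    h1.trans (h2.trans (by gcongr))
  have h7 : ‖g‖ₑ * ENNReal.ofReal (b - a) ^ (1 / 2 : ℝ) =
      ENNReal.ofReal (Real.sqrt (b - a) * ‖g‖) := by
    rw [ENNReal.ofReal_rpow_of_nonneg (by linarith) (by norm_num), ← Real.sqrt_eq_rpow,
      ← ofReal_norm, ← ENNReal.ofReal_mul (norm_nonneg _), mul_comm]
  rw [h7, ← ofReal_norm] at h6
  exact (ENNReal.ofReal_le_ofReal_iff (by positivity)).1 h6

theorem ae_vol (hw : Weight w) {u v : ℝ → ℂ} (h : u =ᵐ[mu w] v) : u =ᵐ[volume] v :=
  (ae_iff_vol hw).1 h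

theorem exT (hw : Weight w) {ψ : ℝ → ℝ} (hψ : Continuous ψ) (hb : ∀ s, |ψ s| ≤ 1) {a b : ℝ}
    (hab : a ≤ b) : ∃ T : H2 w →L[ℂ] ℂ,
      (∀ g : H2 w, T g = ∫ s in a..b, (ψ s : ℂ) * (g : ℝ → ℂ) s) ∧
      ‖T‖ ≤ Real.sqrt (b - a) := by
  let T₀ : H2 w →ₗ[ℂ] ℂ :=
    { toFun := fun g => ∫ s in a..b, (ψ s : ℂ) * (g : ℝ → ℂ) s
      map_add' := fun g g' => by
        rw [← intervalIntegral.integral_add (iintC hw g hψ a b) (iintC hw g' hψ a b)]
        refine intervalIntegral.integral_congr_ae ?_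
        filter_upwards [ae_vol hw (Lp.coeFn_add g g')] with s hs _
        rw [hs, Pi.add_apply, mul_add]
      map_smul' := fun c g => by
        rw [RingHom.id_apply, smul_eq_mul, ← intervalIntegral.integral_const_mul]
        refine intervalIntegral.integral_congr_ae ?_
        filter_upwards [ae_vol hw (Lp.coeFn_smul c g)] with s hs _
        rw [hs, Pi.smul_apply, smul_eq_mul]
        ring }
  refine ⟨T₀.mkContinuous (Real.sqrt (b - a)) fun g => cs hw g hψ hb hab, fun g => rfl, ?_⟩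
  exact LinearMap.mkContinuous_norm_le _ (Real.sqrt_nonneg _) _

theorem exT' (hw : Weight w) (a b : ℝ) : ∃ T : H2 w →L[ℂ] ℂ,
      (∀ g : H2 w, T g = ∫ s in a..b, (g : ℝ → ℂ) s) ∧ ‖T‖ ≤ Real.sqrt |b - a| := by
  have h1 : ∀ s : ℝ, |(fun _ : ℝ => (1 : ℝ)) s| ≤ 1 := fun s => by simp
  rcases le_total a b with hab | hab
  · obtain ⟨T, hT, hn⟩ := exT hw (ψ := fun _ => 1) continuous_const h1 hab
    refine ⟨T, fun g => ?_, by rwa [abs_of_nonneg (by linarith)]⟩
    rw [hT]
    simp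
  · obtain ⟨T, hT, hn⟩ := exT hw (ψ := fun _ => 1) continuous_const h1 hab
    refine ⟨-T, fun g => ?_, ?_⟩
    · rw [intervalIntegral.integral_symm]
      show -(T g) = _
      rw [hT]
      simp
    · rw [norm_neg, abs_sub_comm, abs_of_nonneg (by linarith)]
      exact hn

theorem iintC' (hw : Weight w) (g : H2 w) (a b : ℝ) :
    IntervalIntegrable (g : ℝ → ℂ) volume a b := by
  have := iintC hw g (ψ := fun _ => 1) continuous_const a b
  simpa using this

theorem repC (hw : Weight w) (f g : H2 w) (h : DerC w f g) :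
    ∀ᵐ x, (f : ℝ → ℂ) x = (∫ s in (0 : ℝ)..1, (f : ℝ → ℂ) s) -
      (∫ s in (0 : ℝ)..1, (ph s : ℂ) * (g : ℝ → ℂ) s) + ∫ s in (0 : ℝ)..x, (g : ℝ → ℂ) s := by
  filter_upwards [rep hw h.1, rep hw h.2] with x h1 h2
  have r1 := Complex.reCLM.intervalIntegral_comp_comm (iintC' hw f 0 1)
  have r2 := Complex.reCLM.intervalIntegral_comp_comm (iintC hw g ph_cont 0 1)
  have r3 := Complex.reCLM.intervalIntegral_comp_comm (iintC' hw g 0 x)
  have i1 := Complex.imCLM.intervalIntegral_comp_comm (iintC' hw f 0 1)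
  have i2 := Complex.imCLM.intervalIntegral_comp_comm (iintC hw g ph_cont 0 1)
  have i3 := Complex.imCLM.intervalIntegral_comp_comm (iintC' hw g 0 x)
  simp only [Complex.reCLM_apply, Complex.imCLM_apply, Complex.re_ofReal_mul,
    Complex.im_ofReal_mul] at r1 r2 r3 i1 i2 i3
  refine Complex.ext ?_ ?_
  · rw [Complex.add_re, Complex.sub_re, ← r1, ← r2, ← r3]
    exact h1
  · rw [Complex.add_im, Complex.sub_im, ← i1, ← i2, ← i3]
    exact h2

theorem t_V3 : S_V3 := by
  intro w hw V hV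
  choose T hT hTn using fun a b => exT' hw a b
  obtain ⟨T2, hT2, -⟩ := exT hw ph_cont ph_le zero_le_one
  set fs : V →L[ℂ] H2 w := (WithLp.fstL 2 ℂ (H2 w) (H2 w)).comp V.subtypeL with hfs
  set sn : V →L[ℂ] H2 w := (WithLp.sndL 2 ℂ (H2 w) (H2 w)).comp V.subtypeL with hsn
  have hfs' : ∀ z : V, fs z = (z : HH w).fst := fun z => rfl
  have hsn' : ∀ z : V, sn z = (z : HH w).snd := fun z => rfl
  refine ⟨fun x => (T 0 1).comp fs - T2.comp sn + (T 0 x).comp sn, ?_, fun z => ?_⟩
  · have hc : Continuous fun x => T 0 x := by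
      rw [continuous_iff_continuousAt]
      intro y
      rw [ContinuousAt, tendsto_iff_norm_sub_tendsto_zero]
      have hd : ∀ x, T 0 x - T 0 y = T y x := by
        intro x
        ext g
        show T 0 x g - T 0 y g = T y x g
        rw [hT, hT, hT]
        exact intervalIntegral.integral_interval_sub_left (iintC' hw g 0 x) (iintC' hw g 0 y)
      have h0 : Tendsto (fun x : ℝ => Real.sqrt |x - y|) (𝓝 y) (𝓝 0) := by
        have h1 : Continuous fun x : ℝ => Real.sqrt |x - y| := by fun_prop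
        have h2 := h1.tendsto y
        simpa using h2
      refine squeeze_zero (fun _ => norm_nonneg _) (fun x => ?_) h0
      rw [hd x]
      exact hTn y x
    exact continuous_const.add (hc.clm_comp continuous_const)
  · have hz := (hV z).1 z.2
    filter_upwards [repC hw _ _ hz] with x hx
    show T 0 1 (fs z) - T2 (sn z) + T 0 x (sn z) = _
    rw [hfs', hsn', hT, hT2, hT]
    exact hx.symm

end Run7.h771.HK
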